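import Pool.Agent.J4H20.LV.Stm
import Pool.Agent.J4H19.TP.R1P

set_option autoImplicit false

/-! # Project LV, (RTZ): integral roots over `ℤ[1/m]`, scaled -/

namespace Pool.Agent.J4H71.LV

open Pool.Agent.J4H20.LV Pool.Agent.J4H19.TP

open Polynomial

/-- (RTZ) -/
theorem t_RTZ : S_RTZ := by
  intro m' e a hm'
  obtain ⟨m, rfl⟩ : ∃ m, m' = m + 2 := ⟨m' - 2, by omega⟩
  have hsub : m + 2 - 1 = m + 1 := by omega
  set R := Localization.Away ((m + 2 : ℕ) : ℤ) with hR
  have hne : ((m + 2 : ℕ) : ℤ) ≠ 0 := by positivity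
  have hle : Submonoid.powers ((m + 2 : ℕ) : ℤ) ≤ nonZeroDivisors ℤ :=
    powers_le_nonZeroDivisors_of_noZeroDivisors hne
  have : IsDomain R := IsLocalization.isDomain_localization hle
  have hinj : Function.Injective (algebraMap ℤ R) := IsLocalization.injective R hle
  set ι := algebraMap ℤ R with hι
  obtain ⟨t, ht⟩ : ∃ t : R, ((m + 2 : ℕ) : R) * t = 1 := by
    have h1 : IsUnit (ι ((m + 2 : ℕ) : ℤ)) :=
      IsLocalization.Away.algebraMap_isUnit ((m + 2 : ℕ) : ℤ)
    obtain ⟨t, ht⟩ := h1.exists_right_inv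
    refine ⟨t, ?_⟩
    rw [← ht]
    simp
  set F : ℤ[X] := ∏ i, (X - C (a i)) with hF
  have hFm : F.Monic := monic_prod_of_monic _ _ fun i _ => monic_X_sub_C _
  have hFn : F.natDegree = (m + 2) * e := by
    rw [hF, natDegree_prod_of_monic _ _ fun i _ => monic_X_sub_C _]
    simp only [natDegree_X_sub_C]
    simp
  obtain ⟨G, hG, hGn, hc⟩ := root_step (R := R) m t ht e (F.map ι) (hFm.map ι)
    (by rw [hFm.natDegree_map, hFn]) e le_rfl
  have hc' : ∀ k, (m + 1) * e ≤ k → (F.map ι - G ^ (m + 2)).coeff k = 0 := fun k hk => hc k (by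
    have : (m + 2) * e = (m + 1) * e + e := by ring
    omega)
  -- the denominators
  have hden : ∀ i : ℕ, ∃ (N : ℕ) (b : ℤ), G.coeff i * ι ((m + 2 : ℕ) : ℤ) ^ N = ι b := by
    intro i
    obtain ⟨N, b, hb⟩ := IsLocalization.Away.surj ((m + 2 : ℕ) : ℤ) (G.coeff i)
    exact ⟨N, b, hb⟩
  choose N b hb using hden
  refine ⟨(Finset.range e).sup N, fun L hL0 hL => ?_⟩
  have hLc : ∀ i, i < e → ∃ c : ℤ, ι L ^ (e - i) * G.coeff i = ι c := by
    intro i hi
    obtain ⟨s, hs⟩ : ((m + 2 : ℕ) : ℤ) ^ N i ∣ L :=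
      (pow_dvd_pow _ (Finset.le_sup (f := N) (Finset.mem_range.2 hi))).trans hL
    obtain ⟨l, hl⟩ : ∃ l, e - i = l + 1 := ⟨e - i - 1, by omega⟩
    refine ⟨L ^ l * s * b i, ?_⟩
    rw [hl, map_mul, map_mul, ← hb i, pow_succ]
    nth_rewrite 2 [hs]
    rw [map_mul, map_pow, map_pow]
    ring
  choose! c hcc using hLc
  set g : ℤ[X] := X ^ e + ∑ i ∈ Finset.range e, C (c i) * X ^ i with hg
  have hgc : ∀ i, g.coeff i = (if i = e then 1 else 0) + if i < e then c i else 0 := by
    intro i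
    rw [hg, coeff_add, coeff_X_pow, finsetSum_coeff]
    congr 1
    simp only [coeff_C_mul, coeff_X_pow, mul_ite, mul_one, mul_zero]
    rw [Finset.sum_ite_eq (Finset.range e) i]
    simp only [Finset.mem_range]
  have hsd : (∑ i ∈ Finset.range e, C (c i) * X ^ i : ℤ[X]).degree < e := by
    refine (degree_sum_le _ _).trans_lt ((Finset.sup_lt_iff (WithBot.bot_lt_coe e)).2 fun i hi => ?_)
    exact (degree_C_mul_X_pow_le i (c i)).trans_lt
      (WithBot.coe_lt_coe.2 (Finset.mem_range.1 hi))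
  have hgm : g.Monic := monic_X_pow_add hsd
  have hgn : g.natDegree = e := by
    rw [hg, natDegree_add_eq_left_of_degree_lt (by rw [degree_X_pow]; exact hsd), natDegree_X_pow]
  set r : ℤ[X] := ∏ i, (X - C (L * a i)) - g ^ (m + 2) with hr
  -- scaling
  have hsF : ((∏ i, (X - C (L * a i)) : ℤ[X]).map ι).comp (C (ι L) * X) =
      C (ι L) ^ ((m + 2) * e) * F.map ι := by
    rw [Polynomial.map_prod, hF, Polynomial.map_prod, prod_comp]
    have : ∀ i : Fin (m + 2) × Fin e, (((X - C (L * a i) : ℤ[X]).map ι).comp (C (ι L) * X)) =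
        C (ι L) * (X - C (a i) : ℤ[X]).map ι := by
      intro i
      have h1 : (X - C (L * a i) : ℤ[X]).map ι = X - C (ι L * ι (a i)) := by
        rw [Polynomial.map_sub, map_X, map_C, map_mul]
      have h2 : (X - C (a i) : ℤ[X]).map ι = X - C (ι (a i)) := by
        rw [Polynomial.map_sub, map_X, map_C]
      rw [h1, h2, sub_comp, X_comp, C_comp, C_mul]
      ring
    rw [Finset.prod_congr rfl fun i _ => this i, Finset.prod_mul_distrib, Finset.prod_const]
    congr 2
    simp
  have hsG : (g.map ι).comp (C (ι L) * X) = C (ι L) ^ e * G := by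
    ext k
    rw [comp_C_mul_X_coeff, coeff_map, hgc, ← C_pow, coeff_C_mul]
    rcases Nat.lt_trichotomy k e with h | h | h
    · rw [if_neg (by omega), if_pos h, zero_add, ← hcc k h]
      have h3 : ι L ^ e = ι L ^ (e - k) * ι L ^ k := by
        rw [← pow_add]
        congr 1
        omega
      rw [h3]
      ring
    · rw [if_pos h, if_neg (by omega), add_zero, map_one, one_mul, h]
      have : G.coeff e = 1 := by
        rw [← hGn]
        exact hG
      rw [this, mul_one]
    · rw [if_neg (by omega), if_neg (by omega), add_zero, map_zero, zero_mul,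
        coeff_eq_zero_of_natDegree_lt (by omega), mul_zero]
  have hLι : ι L ≠ 0 := fun h => hL0 (hinj (by rw [h, map_zero]))
  have hrc : ∀ k, (m + 1) * e ≤ k → r.coeff k = 0 := by
    intro k hk
    have h1 : (r.map ι).comp (C (ι L) * X) =
        C (ι L ^ ((m + 2) * e)) * (F.map ι - G ^ (m + 2)) := by
      rw [hr, Polynomial.map_sub, Polynomial.map_pow, sub_comp, pow_comp, hsF, hsG, C_pow]
      ring
    have h2 : ((r.map ι).comp (C (ι L) * X)).coeff k =
        (C (ι L ^ ((m + 2) * e)) * (F.map ι - G ^ (m + 2))).coeff k := by rw [h1]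
    rw [comp_C_mul_X_coeff, coeff_map, coeff_C_mul, hc' k hk, mul_zero] at h2
    rcases mul_eq_zero.1 h2 with h3 | h3
    · exact hinj (by rw [h3, map_zero])
    · exact absurd h3 (pow_ne_zero _ hLι)
  refine ⟨g, r, hgm, hgn, ?_, by rw [hr]; ring⟩
  rw [hsub]
  exact (degree_lt_iff_coeff_zero _ _).2 hrc

end Pool.Agent.J4H71.LV
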