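import Pool.Agent.J4H20.LV.Stm

set_option autoImplicit false

/-! # Project LV, (UNQ): uniqueness of the root modulo `T` -/

namespace Pool.Agent.J4H71.LV

open Pool.Agent.J4H20.LV

open Polynomial

theorem dvd_iff_map (T : ℕ) (p : ℤ[X]) :
    C (T : ℤ) ∣ p ↔ p.map (Int.castRingHom (ZMod T)) = 0 := by
  rw [C_dvd_iff_dvd_coeff, Polynomial.ext_iff]
  refine forall_congr' fun i => ?_
  rw [coeff_map, coeff_zero, eq_intCast, ZMod.intCast_zmod_eq_zero_iff_dvd]

/-- `A ^ m + r₁ = G ^ m + r₂` with `r₁`, `r₂` of small degree only for `A = G` -/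
theorem root_uniq {F : Type} [Field F] (m n : ℕ) (hm : 1 ≤ m) (hmF : (m : F) ≠ 0) (A G r : F[X])
    (hA : A.Monic) (hAn : A.natDegree = n) (hG : G.Monic) (hGn : G.natDegree = n)
    (hr : r.degree < ((m - 1) * n : ℕ)) (h : A ^ m = G ^ m + r) : A = G := by
  by_contra hne
  set S : F[X] := ∑ i ∈ Finset.range m, A ^ i * G ^ (m - 1 - i) with hS
  have h1 : S * (A - G) = r := by
    rw [hS, (Commute.all A G).geom_sum₂_mul]
    linear_combination h
  have h2 : A - G ≠ 0 := sub_ne_zero.2 hne
  have h3 : S.coeff ((m - 1) * n) = (m : F) := by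
    rw [hS, finsetSum_coeff]
    have : ∀ i ∈ Finset.range m, (A ^ i * G ^ (m - 1 - i)).coeff ((m - 1) * n) = 1 := by
      intro i hi
      rw [Finset.mem_range] at hi
      have hmo : (A ^ i * G ^ (m - 1 - i)).Monic := (hA.pow _).mul (hG.pow _)
      have hn : (A ^ i * G ^ (m - 1 - i)).natDegree = (m - 1) * n := by
        rw [(hA.pow _).natDegree_mul (hG.pow _), hA.natDegree_pow, hG.natDegree_pow, hAn, hGn,
          ← add_mul]
        congr 1
        omega
      rw [← hn]
      exact hmo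
    rw [Finset.sum_congr rfl this]
    simp
  have h4 : S ≠ 0 := fun h => by
    rw [h, coeff_zero] at h3
    exact hmF h3.symm
  have h5 : (m - 1) * n ≤ S.natDegree := le_natDegree_of_ne_zero (by rw [h3]; exact hmF)
  have h6 : r ≠ 0 := by
    rw [← h1]
    exact mul_ne_zero h4 h2
  have h7 : r.natDegree = S.natDegree + (A - G).natDegree := by rw [← h1, natDegree_mul h4 h2]
  have h8 : r.natDegree < (m - 1) * n := (natDegree_lt_iff_degree_lt h6).2 hr
  omega

/-- (UNQ) -/
theorem t_UNQ : S_UNQ := by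
  intro m e T g r g₀ r₀ hm hT hTm hg hgn hr hg₀ hgn₀ hr₀ hd
  have : Fact T.Prime := ⟨hT⟩
  set f := Int.castRingHom (ZMod T) with hf
  have hmF : (m : ZMod T) ≠ 0 := fun h => hTm ((ZMod.natCast_eq_zero_iff m T).1 h)
  rw [dvd_iff_map] at hd
  rw [dvd_iff_map, dvd_iff_map]
  simp only [Polynomial.map_sub, Polynomial.map_add, Polynomial.map_pow] at hd ⊢
  have hA := hg.map f
  have hG := hg₀.map f
  have hAn : (g.map f).natDegree = e := by rw [hg.natDegree_map, hgn]
  have hGn : (g₀.map f).natDegree = e := by rw [hg₀.natDegree_map, hgn₀]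
  have hrr : (r₀.map f - r.map f).degree < ((m - 1) * e : ℕ) :=
    lt_of_le_of_lt (degree_sub_le _ _) (max_lt (lt_of_le_of_lt degree_map_le hr₀)
      (lt_of_le_of_lt degree_map_le hr))
  have key := root_uniq m e (by omega) hmF _ _ _ hA hAn hG hGn hrr
    (by linear_combination hd)
  refine ⟨by rw [key, sub_self], ?_⟩
  rw [key] at hd
  linear_combination hd

end Pool.Agent.J4H71.LV
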